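import Mathlib

set_option autoImplicit false

/-!
# Level parameters of the construction

`s 0 = 8`, `s (i+1) = 3 ^ (s i - 4 - i)`, `k i = 3 ^ i * s i`; at level `i` we use `F = 3 ^ s`,
`H = F ^ 2`, `J = (F + 1) * 2 ^ k`, `V = H J + (H - 1) / 2`.
-/

namespace Pool.Agent.H764MB

/-- the exponents -/
def s : ℕ → ℕ
  | 0 => 8
  | (i + 1) => 3 ^ (s i - 4 - i)

/-- the sizes of the finite sets attached to special numbers -/
def k (i : ℕ) : ℕ := 3 ^ i * s i

/-- end of the full region of level `i` -/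
def F (i : ℕ) : ℕ := 3 ^ s i

/-- the period of the window of level `i` -/
def H (i : ℕ) : ℕ := F i * F i

/-- the number of special numbers of level `i` -/
def J (i : ℕ) : ℕ := (F i + 1) * 2 ^ k i

/-- end of the window of level `i` -/
def V (i : ℕ) : ℕ := H i * J i + (H i - 1) / 2

theorem s_succ (i : ℕ) : s (i + 1) = 3 ^ (s i - 4 - i) := rfl

theorem pow_ge_aux (n : ℕ) : 8 * (n + 4) + 5 ≤ 3 ^ (n + 4) := by
  induction n with
  | zero => norm_num
  | succ n ih =>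
    have : 3 ^ (n + 1 + 4) = 3 * 3 ^ (n + 4) := by ring
    omega

theorem step_aux (i s : ℕ) (h : 4 * i + 8 ≤ s) : 5 + 3 * s + 3 ^ i * s ≤ 3 ^ (s - 4 - i) := by
  obtain ⟨n, hn⟩ : ∃ n, s = n + 4 + 4 + 2 * i := ⟨s - 8 - 2 * i, by omega⟩
  have hni : 2 * i ≤ n := by omega
  have h1 := pow_ge_aux n
  have h2 : s - 4 - i = i + (n + 4) := by omega
  rw [h2, pow_add]
  have h3 : 4 * s + 5 ≤ 3 ^ (n + 4) := by omega
  have h4 : 3 ^ i * (4 * s + 5) ≤ 3 ^ i * 3 ^ (n + 4) := Nat.mul_le_mul_left _ h3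
  have h5 : 1 ≤ 3 ^ i := Nat.one_le_pow _ _ (by norm_num)
  have h6 : 1 * (3 * s + 5) ≤ 3 ^ i * (3 * s + 5) := Nat.mul_le_mul_right _ h5
  have h7 : 3 ^ i * (4 * s + 5) = 3 ^ i * s + 3 ^ i * (3 * s + 5) := by ring
  omega

theorem s_ge' (i : ℕ) : 4 * i + 8 ≤ s i := by
  induction i with
  | zero => exact le_rfl
  | succ i ih =>
    have h1 := step_aux i (s i) ih
    rw [s_succ]
    omega

theorem s_ge (i : ℕ) : 8 ≤ s i := by
  have := s_ge' i
  omega

theorem s_lt (i : ℕ) : 5 + 3 * s i + k i ≤ s (i + 1) := step_aux i (s i) (s_ge' i)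

theorem F_eq (i : ℕ) : F i = 27 * k (i + 1) := by
  have h := s_ge' i
  rw [k, s_succ, F, ← pow_add, show (27 : ℕ) = 3 ^ 3 by norm_num, ← pow_add]
  congr 1
  omega

theorem F_ge (i : ℕ) : 6561 ≤ F i := by
  have h := s_ge i
  calc 6561 = 3 ^ 8 := by norm_num
    _ ≤ 3 ^ s i := Nat.pow_le_pow_right (by norm_num) h

theorem F_pos (i : ℕ) : 0 < F i := lt_of_lt_of_le (by norm_num) (F_ge i)

theorem H_def (i : ℕ) : H i = F i * F i := rfl

theorem H_ge (i : ℕ) : 6561 * F i ≤ H i := Nat.mul_le_mul_right _ (F_ge i)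

theorem J_pos (i : ℕ) : 1 ≤ J i := Nat.mul_pos (Nat.succ_pos _) (pow_pos (by norm_num) _)

theorem V_le' (i : ℕ) : V i ≤ 3 * F i ^ 3 * 2 ^ k i := by
  have h1 : (H i - 1) / 2 ≤ F i ^ 2 * (F i * 2 ^ k i) := by
    have h3 : (H i - 1) / 2 ≤ F i ^ 2 := by rw [H, ← sq]; omega
    have h4 : 0 < F i * 2 ^ k i := Nat.mul_pos (F_pos i) (pow_pos (by norm_num) _)
    exact h3.trans (Nat.le_mul_of_pos_right _ h4)
  have h2 : H i * J i ≤ 2 * (F i ^ 2 * (F i * 2 ^ k i)) := by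
    have h3 : F i + 1 ≤ 2 * F i := by have := F_pos i; omega
    calc H i * J i = (F i + 1) * (F i ^ 2 * 2 ^ k i) := by rw [H, J]; ring
      _ ≤ (2 * F i) * (F i ^ 2 * 2 ^ k i) := Nat.mul_le_mul_right _ h3
      _ = 2 * (F i ^ 2 * (F i * 2 ^ k i)) := by ring
  calc V i = H i * J i + (H i - 1) / 2 := rfl
    _ ≤ 2 * (F i ^ 2 * (F i * 2 ^ k i)) + F i ^ 2 * (F i * 2 ^ k i) := Nat.add_le_add h2 h1
    _ = 3 * F i ^ 3 * 2 ^ k i := by ring

theorem V_lt (i : ℕ) : 9 * V i < F (i + 1) := by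
  have h1 := V_le' i
  have h0 : 2 ^ k i ≤ 3 ^ k i := Nat.pow_le_pow_left (by norm_num) _
  have h2 : 3 * F i ^ 3 * 2 ^ k i ≤ 3 * F i ^ 3 * 3 ^ k i := Nat.mul_le_mul_left _ h0
  have h3 : 3 ^ (5 + 3 * s i + k i) ≤ 3 ^ s (i + 1) := Nat.pow_le_pow_right (by norm_num) (s_lt i)
  have h4 : 3 ^ (5 + 3 * s i + k i) = 81 * (3 * F i ^ 3 * 3 ^ k i) := by rw [F]; ring
  have h5 : 0 < 3 * F i ^ 3 * 3 ^ k i := by have := F_pos i; positivity
  rw [F]
  omega

theorem HJ_le_V (i : ℕ) : H i * J i ≤ V i := Nat.le_add_right _ _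

theorem F_lt_V (i : ℕ) : F i < V i := by
  have h1 := HJ_le_V i
  have h2 := J_pos i
  have h3 : H i ≤ H i * J i := Nat.le_mul_of_pos_right _ h2
  have h4 := H_ge i
  have h5 := F_pos i
  omega

theorem H_le_V (i : ℕ) : H i ≤ V i :=
  (Nat.le_mul_of_pos_right _ (J_pos i)).trans (HJ_le_V i)

theorem F_mono : Monotone F := by
  apply monotone_nat_of_le_succ
  intro i
  have h1 := V_lt i
  have h2 := F_lt_V i
  omega

theorem V_lt_F {i j : ℕ} (h : i < j) : 9 * V i < F j :=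
  lt_of_lt_of_le (V_lt i) (F_mono h)

theorem V_mono : Monotone V := by
  apply monotone_nat_of_le_succ
  intro i
  have h1 := V_lt i
  have h2 := F_lt_V (i + 1)
  omega

theorem F_ge_id (i : ℕ) : i ≤ F i := by
  induction i with
  | zero => exact Nat.zero_le _
  | succ i ih =>
    have h1 := V_lt i
    have h2 := F_lt_V i
    omega

theorem k_le (i : ℕ) : 2 * k i < F i := by
  rcases i with _ | i
  · decide
  · have h1 := F_eq i
    have h2 := V_lt i
    have h3 := F_lt_V i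
    omega

theorem H_mod_three (i : ℕ) : 3 ∣ H i := by
  rw [H, F]
  exact Dvd.dvd.mul_left (dvd_pow_self 3 (by have := s_ge i; omega)) _

theorem F_mod_nine (i : ℕ) : 9 ∣ F i := by
  rw [F_eq]
  exact Dvd.intro (3 * k (i + 1)) (by ring)

theorem q_dvd_H (i : ℕ) : 3 * F i ∣ H i := by
  rw [H]
  apply Nat.mul_dvd_mul_right
  exact (by norm_num : (3:ℕ) ∣ 9).trans (F_mod_nine i)

theorem H_odd (i : ℕ) : H i % 2 = 1 := by
  have : Odd (H i) := by
    rw [H, F]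
    exact ((by decide : Odd 3).pow).mul ((by decide : Odd 3).pow)
  exact Nat.odd_iff.1 this

end Pool.Agent.H764MB
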