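import Mathlib
import Pool.Agent.H764MB.Level

set_option autoImplicit false

/-!
# The set and its special numbers
-/

namespace Pool.Agent.H764MB

/-- the residues allowed in a window -/
def Win (F H r : ℕ) : Prop :=
  F < r ∧ r + F < H ∧
    (r % 3 = 1 ∨ (r % 3 = 0 ∧ ((2 * r < H ∧ 3 * F ∣ r) ∨ (H < 2 * r ∧ ¬ 3 * F ∣ r))))

/-- the backbone -/
def A0 : Set ℕ :=
  {x | x ≤ F 0 ∨ (∃ i, V i < x ∧ x ≤ F (i + 1)) ∨
    (∃ i, F i < x ∧ x ≤ V i ∧ Win (F i) (H i) (x % H i))}

/-- the whole set, for a given system `e` of finite sets -/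
def AA (e : ℕ → ℕ → Finset ℕ) : Set ℕ :=
  {x | x ∈ A0 ∨ ∃ i j σ, 1 ≤ j ∧ j ≤ J i ∧ σ ∈ e i j ∧ x + σ = H i * j}

/-- the classification of the elements of `AA e` up to `V i` -/
theorem classify (e : ℕ → ℕ → Finset ℕ) (he : ∀ i j σ, σ ∈ e i j → 0 < σ ∧ σ ≤ F i)
    {i x : ℕ} (hx : x ∈ AA e) (hxV : x ≤ V i) :
    x ≤ F i ∨ (Win (F i) (H i) (x % H i)) ∨
      (∃ j σ, 1 ≤ j ∧ j ≤ J i ∧ σ ∈ e i j ∧ x + σ = H i * j) := by
  rcases hx with (h | ⟨i', h1, h2⟩ | ⟨i', h1, h2, h3⟩) | ⟨i', j, σ, hj1, hj2, hσ, hx⟩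
  · left
    exact h.trans (F_mono (Nat.zero_le i))
  · left
    by_cases h : i' + 1 ≤ i
    · exact h2.trans (F_mono h)
    · have := V_mono (show i ≤ i' by omega)
      omega
  · rcases lt_trichotomy i' i with h | h | h
    · left
      have := V_lt_F h
      omega
    · subst h
      right; left
      exact h3
    · left
      have := V_lt_F h
      omega
  · rcases lt_trichotomy i' i with h | h | h
    · left
      have h1 := V_lt_F h
      have h2 := HJ_le_V i'
      have h3 : H i' * j ≤ H i' * J i' := Nat.mul_le_mul_left _ hj2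
      omega
    · subst h
      right; right
      exact ⟨j, σ, hj1, hj2, hσ, hx⟩
    · exfalso
      have h1 := V_lt_F h
      have h2 : H i' ≤ H i' * j := Nat.le_mul_of_pos_right _ hj1
      have h3 := H_ge i'
      have h4 := (he i' j σ hσ).2
      have h5 := F_pos i'
      omega

theorem mod_of_add_eq {a b h : ℕ} (hpos : 0 < b) (hlt : b < h) (j : ℕ) (hab : a + b = h * j) :
    a % h = h - b := by
  have hj : 1 ≤ j := by
    rcases Nat.eq_zero_or_pos j with h0 | h0
    · subst h0; omega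
    · exact h0
  obtain ⟨j', rfl⟩ := Nat.exists_eq_add_of_le hj
  have h1 : a = h * j' + (h - b) := by
    have : h * (1 + j') = h * j' + h := by ring
    omega
  rw [h1, Nat.mul_add_mod, Nat.mod_eq_of_lt (by omega)]

/-- **Lemma 1**: in any representation of a special number, one of the summands belongs to the
finite set attached to that number -/
theorem special_rep (e : ℕ → ℕ → Finset ℕ) (he : ∀ i j σ, σ ∈ e i j → 0 < σ ∧ σ ≤ F i)
    {i j x y : ℕ} (hj1 : 1 ≤ j) (hj2 : j ≤ J i) (hx : x ∈ AA e) (hy : y ∈ AA e)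
    (hxy : x + y = H i * j) : x ∈ e i j ∨ y ∈ e i j := by
  have hle : H i * j ≤ V i := (Nat.mul_le_mul_left _ hj2).trans (HJ_le_V i)
  have hH1 : H i ≤ H i * j := Nat.le_mul_of_pos_right _ hj1
  have hHF := H_ge i
  have hF := F_pos i
  have hodd := H_odd i
  have h3 := H_mod_three i
  have hq := q_dvd_H i
  -- the sum of the residues
  have hmod : (x % H i + y % H i) % H i = 0 := by
    rw [← Nat.add_mod, hxy, Nat.mul_mod_right]
  have key : ∀ u v : ℕ, u + v = H i * j → u ≤ F i →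
      (∃ j' σ, 1 ≤ j' ∧ j' ≤ J i ∧ σ ∈ e i j' ∧ v + σ = H i * j') → u ∈ e i j := by
    rintro u v huv hu ⟨j', σ, hj1', hj2', hσ, hv⟩
    have hσ' := he i j' σ hσ
    have h4 : j' = j := by
      by_contra hne
      rcases Nat.lt_or_gt_of_ne hne with hlt | hlt
      · have : H i * (j' + 1) ≤ H i * j := Nat.mul_le_mul_left _ hlt
        rw [Nat.mul_add, Nat.mul_one] at this
        omega
      · have : H i * (j + 1) ≤ H i * j' := Nat.mul_le_mul_left _ hlt
        rw [Nat.mul_add, Nat.mul_one] at this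
        omega
    subst h4
    have : u = σ := by omega
    rw [this]
    exact hσ
  have keyres : ∀ v : ℕ,
      (∃ j' σ, 1 ≤ j' ∧ j' ≤ J i ∧ σ ∈ e i j' ∧ v + σ = H i * j') →
      ∃ σ, 0 < σ ∧ σ ≤ F i ∧ v % H i = H i - σ := by
    rintro v ⟨j', σ, hj1', hj2', hσ, hv⟩
    have hσ' := he i j' σ hσ
    exact ⟨σ, hσ'.1, hσ'.2, mod_of_add_eq hσ'.1 (by omega) j' hv⟩
  have hdvd : ∀ t : ℕ, 0 < t → t < H i → t % H i = 0 → False := by
    intro t h1 h2 h3
    rw [Nat.mod_eq_of_lt h2] at h3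
    omega
  have hdvd2 : ∀ t : ℕ, H i < t → t < 2 * H i → t % H i = 0 → False := by
    intro t h1 h2 h3
    have h4 : t % H i = t - H i := by
      rw [Nat.mod_eq_sub_mod h1.le, Nat.mod_eq_of_lt (by omega)]
    omega
  rcases classify e he hx (i := i) (by omega) with h1 | h1 | h1 <;>
    rcases classify e he hy (i := i) (by omega) with h2 | h2 | h2
  · exfalso; omega
  · -- x small, y window
    exfalso
    have hx' : x % H i = x := Nat.mod_eq_of_lt (by omega)
    rw [hx'] at hmod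
    obtain ⟨h2a, h2b, -⟩ := h2
    exact hdvd _ (by omega) (by omega) hmod
  · left
    exact key x y hxy h1 h2
  · exfalso
    have hy' : y % H i = y := Nat.mod_eq_of_lt (by omega)
    rw [hy'] at hmod
    obtain ⟨h2a, h2b, -⟩ := h1
    exact hdvd _ (by omega) (by omega) hmod
  · -- both in the window
    exfalso
    obtain ⟨a1, a2, a3⟩ := h1
    obtain ⟨b1, b2, b3⟩ := h2
    have hsum : x % H i + y % H i = H i := by
      by_contra hne
      rcases Nat.lt_or_gt_of_ne hne with hlt | hlt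
      · exact hdvd _ (by omega) hlt hmod
      · exact hdvd2 _ hlt (by omega) hmod
    have a0 : x % H i % 3 = 0 ∧ y % H i % 3 = 0 := by omega
    have a4 : (2 * (x % H i) < H i ∧ 3 * F i ∣ x % H i) ∨
        (H i < 2 * (x % H i) ∧ ¬ 3 * F i ∣ x % H i) := by
      rcases a3 with h | h
      · omega
      · exact h.2
    have b4 : (2 * (y % H i) < H i ∧ 3 * F i ∣ y % H i) ∨
        (H i < 2 * (y % H i) ∧ ¬ 3 * F i ∣ y % H i) := by
      rcases b3 with h | h
      · omega
      · exact h.2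
    rcases a4 with ⟨c1, c2⟩ | ⟨c1, c2⟩ <;> rcases b4 with ⟨d1, d2⟩ | ⟨d1, d2⟩
    · omega
    · apply d2
      have := Nat.dvd_sub hq c2
      rwa [show H i - x % H i = y % H i by omega] at this
    · apply c2
      have := Nat.dvd_sub hq d2
      rwa [show H i - y % H i = x % H i by omega] at this
    · omega
  · exfalso
    obtain ⟨σ, s1, s2, s3⟩ := keyres y h2
    obtain ⟨a1, a2, -⟩ := h1
    rw [s3] at hmod
    exact hdvd2 _ (by omega) (by omega) hmod
  · right
    exact key y x (by omega) h2 h1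
  · exfalso
    obtain ⟨σ, s1, s2, s3⟩ := keyres x h1
    obtain ⟨a1, a2, -⟩ := h2
    rw [s3] at hmod
    exact hdvd2 _ (by omega) (by omega) hmod
  · exfalso
    obtain ⟨σ, s1, s2, s3⟩ := keyres x h1
    obtain ⟨σ', s1', s2', s3'⟩ := keyres y h2
    rw [s3, s3'] at hmod
    exact hdvd2 _ (by omega) (by omega) hmod

end Pool.Agent.H764MB
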