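import Mathlib
import Pool.Agent.H764MB.Special

set_option autoImplicit false

/-!
# The designated representations of a number which is not special
-/

namespace Pool.Agent.H764MB

/-- near a multiple of the period -/
def Near (F H n : ℕ) : Prop := H ≤ n % H + 2 * F ∨ (n % H ≤ 2 * F ∧ H ≤ n)

open Classical in
/-- the designated summands of `n`, for `F i < n ≤ F (i+1)` -/
noncomputable def des (i n t : ℕ) : ℕ :=
  if n ≤ V i ∧ Near (F i) (H i) n then
    (if n % 3 = 2 then 3 * F i + 1 + 3 * t else 3 * F i * (t + 2))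
  else F i / 3 + (n + 2) % 3 + 3 * t

theorem des_inj (i n : ℕ) {t t' : ℕ} (h : des i n t = des i n t') : t = t' := by
  have hF := F_pos i
  unfold des at h
  split_ifs at h
  · omega
  · have := Nat.eq_of_mul_eq_mul_left (by omega) h
    omega
  · omega

/-- lower part of the full region -/
theorem full_low (i : ℕ) : (i = 0) ∨ (∃ i', i = i' + 1 ∧ 9 * V i' < F i) := by
  rcases i with _ | i'
  · left; rfl
  · right; exact ⟨i', rfl, V_lt i'⟩

theorem mem_full {i x : ℕ} (h1 : F i ≤ 9 * x) (h2 : x ≤ F i) : x ∈ A0 := by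
  rcases full_low i with h | ⟨i', h, hV⟩
  · subst h
    left; exact h2
  · subst h
    right; left
    exact ⟨i', by omega, h2⟩

theorem mem_win {i x : ℕ} (h1 : F i < x) (h2 : x ≤ V i) (h3 : Win (F i) (H i) (x % H i)) :
    x ∈ A0 := Or.inr (Or.inr ⟨i, h1, h2, h3⟩)

theorem mem_full' {i x : ℕ} (h1 : V i < x) (h2 : x ≤ F (i + 1)) : x ∈ A0 :=
  Or.inr (Or.inl ⟨i, h1, h2⟩)

/-- near a multiple of the period: `n = m + ρ` or `n = m - ρ` -/
theorem near_cases {F H n : ℕ} (hn : Near F H n) (hFn : 2 * F < H) (h0 : n % H ≠ 0) :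
    ∃ a d : ℕ, 1 ≤ a ∧ 0 < d ∧ d ≤ 2 * F ∧ (n = H * a + d ∨ n + d = H * a) := by
  have hdm := Nat.div_add_mod n H
  have hlt : n % H < H := Nat.mod_lt _ (by omega)
  rcases hn with h | ⟨h, h'⟩
  · refine ⟨n / H + 1, H - n % H, Nat.le_add_left _ _, by omega, by omega, Or.inr ?_⟩
    rw [Nat.mul_add, Nat.mul_one]
    omega
  · refine ⟨n / H, n % H, Nat.div_pos h' (by omega), by omega, h, Or.inl hdm.symm⟩

theorem des_near_two {i n t : ℕ} (hn2 : n ≤ V i) (hnear : Near (F i) (H i) n)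
    (h0 : n % H i ≠ 0) (ht : 27 * t < F i) (hmod : n % 3 = 2) :
    3 * F i + 1 + 3 * t ∈ A0 ∧ n - (3 * F i + 1 + 3 * t) ∈ A0 ∧
      F i ≤ 3 * (3 * F i + 1 + 3 * t) ∧ 2 * (3 * F i + 1 + 3 * t) < n := by
  have hF := F_ge i
  have hH := H_ge i
  have hHV := H_le_V i
  have h3F : 3 ∣ F i := (by norm_num : (3:ℕ) ∣ 9).trans (F_mod_nine i)
  have h3H := H_mod_three i
  obtain ⟨a, d, ha, hd, hd2, hcase⟩ := near_cases hnear (by omega) h0
  have haH : H i ≤ H i * a := Nat.le_mul_of_pos_right _ ha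
  have h3Ha : 3 ∣ H i * a := Dvd.dvd.mul_right h3H a
  set x := 3 * F i + 1 + 3 * t with hx
  have hxH : x < H i := by omega
  have hmx : x ∈ A0 := by
    refine mem_win (i := i) (by omega) (by omega) ?_
    rw [Nat.mod_eq_of_lt hxH]
    exact ⟨by omega, by omega, Or.inl (by omega)⟩
  refine ⟨hmx, ?_, by omega, by omega⟩
  -- `c` is the distance of `n - x` below the multiple
  obtain ⟨c, hc1, hc2, hc3⟩ : ∃ c, F i < c ∧ c ≤ 6 * F i ∧ (n - x) + c = H i * a := by
    rcases hcase with h | h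
    · exact ⟨x - d, by omega, by omega, by omega⟩
    · exact ⟨x + d, by omega, by omega, by omega⟩
  have hr := mod_of_add_eq (a := n - x) (b := c) (h := H i) (by omega) (by omega) a hc3
  refine mem_win (i := i) (by omega) (by omega) ?_
  rw [hr]
  exact ⟨by omega, by omega, Or.inl (by omega)⟩

theorem des_near_other {i n t : ℕ} (hn2 : n ≤ V i) (hnear : Near (F i) (H i) n)
    (h0 : n % H i ≠ 0) (ht : 27 * t + 27 ≤ F i) (hmod : n % 3 ≠ 2) :
    3 * F i * (t + 2) ∈ A0 ∧ n - 3 * F i * (t + 2) ∈ A0 ∧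
      F i ≤ 3 * (3 * F i * (t + 2)) ∧ 2 * (3 * F i * (t + 2)) < n := by
  have hF := F_ge i
  have hH := H_ge i
  have hHV := H_le_V i
  have h3F : 3 ∣ F i := (by norm_num : (3:ℕ) ∣ 9).trans (F_mod_nine i)
  have h3H := H_mod_three i
  have hodd := H_odd i
  obtain ⟨a, d, ha, hd, hd2, hcase⟩ := near_cases hnear (by omega) h0
  have haH : H i ≤ H i * a := Nat.le_mul_of_pos_right _ ha
  have h3Ha : 3 ∣ H i * a := Dvd.dvd.mul_right h3H a
  have hlow : 6 * F i ≤ 3 * F i * (t + 2) := by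
    have : 3 * F i * (t + 2) = 3 * F i * t + 6 * F i := by ring
    omega
  have hup : 9 * (3 * F i * (t + 2)) ≤ H i + 27 * F i := by
    have h1 : F i * (27 * t + 27) ≤ F i * F i := Nat.mul_le_mul_left _ ht
    have h2 : 9 * (3 * F i * (t + 2)) = F i * (27 * t + 27) + 27 * F i := by ring
    rw [h2, H_def]
    omega
  have hq : 3 * F i ∣ 3 * F i * (t + 2) := Dvd.intro _ rfl
  have hqH : 3 * F i ∣ H i := q_dvd_H i
  have h3x : 3 ∣ 3 * F i * (t + 2) := ⟨F i * (t + 2), by ring⟩
  set x := 3 * F i * (t + 2) with hx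
  have hxH : x < H i := by omega
  have hmx : x ∈ A0 := by
    refine mem_win (i := i) (by omega) (by omega) ?_
    rw [Nat.mod_eq_of_lt hxH]
    exact ⟨by omega, by omega, Or.inr ⟨by omega, Or.inl ⟨by omega, hq⟩⟩⟩
  refine ⟨hmx, ?_, by omega, by omega⟩
  obtain ⟨c, hc1, hc2, hc3, hc4⟩ : ∃ c, F i < c ∧ c ≤ x + 2 * F i ∧ (n - x) + c = H i * a ∧
      ¬ 3 * F i ∣ c := by
    rcases hcase with h | h
    · refine ⟨x - d, by omega, by omega, by omega, ?_⟩
      intro hdv
      have : 3 * F i ∣ x - (x - d) := Nat.dvd_sub hq hdv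
      rw [show x - (x - d) = d by omega] at this
      have := Nat.le_of_dvd hd this
      omega
    · refine ⟨x + d, by omega, by omega, by omega, ?_⟩
      intro hdv
      have : 3 * F i ∣ d := (Nat.dvd_add_right hq).1 hdv
      have := Nat.le_of_dvd hd this
      omega
  have hr := mod_of_add_eq (a := n - x) (b := c) (h := H i) (by omega) (by omega) a hc3
  refine mem_win (i := i) (by omega) (by omega) ?_
  rw [hr]
  refine ⟨by omega, by omega, ?_⟩
  have h4 : (H i - c) % 3 = 1 ∨ (H i - c) % 3 = 0 := by omega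
  rcases h4 with h4 | h4
  · exact Or.inl h4
  · refine Or.inr ⟨h4, Or.inr ⟨by omega, ?_⟩⟩
    intro hdv
    apply hc4
    have := Nat.dvd_sub hqH hdv
    rwa [show H i - (H i - c) = c by omega] at this

theorem des_far {i n t : ℕ} (hn1 : F i < n) (hn2 : n ≤ F (i + 1))
    (hnear : ¬ (n ≤ V i ∧ Near (F i) (H i) n)) (ht : 27 * t + 27 ≤ F i) :
    F i / 3 + (n + 2) % 3 + 3 * t ∈ A0 ∧ n - (F i / 3 + (n + 2) % 3 + 3 * t) ∈ A0 ∧
      F i ≤ 3 * (F i / 3 + (n + 2) % 3 + 3 * t) ∧
      2 * (F i / 3 + (n + 2) % 3 + 3 * t) < n := by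
  have hF := F_ge i
  have hH := H_ge i
  have hHV := H_le_V i
  have h9F : 9 ∣ F i := F_mod_nine i
  have h3H := H_mod_three i
  have hodd := H_odd i
  set x := F i / 3 + (n + 2) % 3 + 3 * t with hx
  have hx1 : F i ≤ 3 * x := by omega
  have hx2 : 2 * x < F i := by omega
  have hx3 : x % 3 = (n + 2) % 3 := by omega
  refine ⟨mem_full (i := i) (by omega) (by omega), ?_, hx1, by omega⟩
  set y := n - x with hy
  have hy3 : y % 3 = 1 := by omega
  by_cases hyF : y ≤ F i
  · exact mem_full (i := i) (by omega) hyF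
  by_cases hyV : y ≤ V i
  swap
  · exact mem_full' (i := i) (by omega) (by omega)
  refine mem_win (i := i) (by omega) hyV ?_
  have hres : ∀ r : ℕ, y % H i = r → F i < r ∧ r + F i < H i →
      Win (F i) (H i) (y % H i) := by
    rintro r rfl hr2
    refine ⟨hr2.1, hr2.2, Or.inl ?_⟩
    rw [Nat.mod_mod_of_dvd _ h3H]
    exact hy3
  by_cases hnV : n ≤ V i
  · have hnear' : ¬ Near (F i) (H i) n := fun h => hnear ⟨hnV, h⟩
    rw [Near, not_or, not_and_or] at hnear'
    obtain ⟨hn3, hn4⟩ := hnear'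
    by_cases hnH : H i ≤ n
    · have hn5 : 2 * F i < n % H i := by
        rcases hn4 with h | h
        · omega
        · exact absurd hnH h
      have hmod : y % H i = n % H i - x := by
        have h1 := Nat.div_add_mod n (H i)
        have h2 : y = H i * (n / H i) + (n % H i - x) := by omega
        have h3 : n % H i < H i := Nat.mod_lt _ (by omega)
        rw [h2, Nat.mul_add_mod, Nat.mod_eq_of_lt (by omega)]
      refine hres _ hmod ⟨by omega, by omega⟩
    · have h1 : n % H i = n := Nat.mod_eq_of_lt (by omega)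
      refine hres y (Nat.mod_eq_of_lt (by omega)) ⟨by omega, by omega⟩
  · -- `n > V i`, so `y` is just below `V i`
    have hVd : V i = H i * J i + (H i - 1) / 2 := rfl
    have hmod : y % H i = y - H i * J i := by
      have h2 : y = H i * J i + (y - H i * J i) := by omega
      have h3 : y - H i * J i < H i := by omega
      conv_lhs => rw [h2]
      rw [Nat.mul_add_mod, Nat.mod_eq_of_lt h3]
    refine hres _ hmod ⟨by omega, by omega⟩

/-- **Lemma 2** -/
theorem des_spec {i n t : ℕ} (hn1 : F i < n) (hn2 : n ≤ F (i + 1))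
    (hns : ¬ ∃ j, 1 ≤ j ∧ j ≤ J i ∧ n = H i * j) (ht : t < k (i + 1)) :
    des i n t ∈ A0 ∧ n - des i n t ∈ A0 ∧ F i ≤ 3 * des i n t ∧ 2 * des i n t < n := by
  have hFe := F_eq i
  have ht' : 27 * t + 27 ≤ F i := by omega
  have h0 : n ≤ V i → n % H i ≠ 0 := by
    intro hV h
    apply hns
    have hdm := Nat.div_add_mod n (H i)
    rw [h, Nat.add_zero] at hdm
    refine ⟨n / H i, ?_, ?_, hdm.symm⟩
    · by_contra hlt
      have : n / H i = 0 := Nat.lt_one_iff.1 (not_le.1 hlt)
      rw [this] at hdm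
      omega
    · by_contra hlt
      have h1 : H i * (J i + 1) ≤ H i * (n / H i) := Nat.mul_le_mul_left _ (not_le.1 hlt)
      have hVd : V i = H i * J i + (H i - 1) / 2 := rfl
      have hH := H_ge i
      have hF := F_ge i
      rw [hdm, Nat.mul_add, Nat.mul_one] at h1
      omega
  unfold des
  split_ifs with h1 h2
  · exact des_near_two h1.1 h1.2 (h0 h1.1) (by omega) h2
  · exact des_near_other h1.1 h1.2 (h0 h1.1) ht' h2
  · exact des_far hn1 hn2 h1 ht'

end Pool.Agent.H764MB
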