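import Mathlib
import Pool.Agent.H764MB.Desig

set_option autoImplicit false

/-!
# Enumeration of the transversals
-/

namespace Pool.Agent.H764MB

open Finset

/-- `n` is a special number of level `i` -/
def Spec (i n : ℕ) : Prop := ∃ j, 1 ≤ j ∧ j ≤ J i ∧ n = H i * j

/-- the transversal of the designated pairs of `n` which takes the small element of the pairs with
index in `S` and the large element of the others -/
noncomputable def trans (i n : ℕ) (S : Finset ℕ) : Finset ℕ :=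
  (range (k (i + 1))).image (fun t => if t ∈ S then des i n t else n - des i n t)

theorem trans_card {i n : ℕ} (hn1 : F i < n) (hn2 : n ≤ F (i + 1)) (hns : ¬ Spec i n)
    (S : Finset ℕ) : (trans i n S).card = k (i + 1) := by
  rw [trans, card_image_of_injOn, card_range]
  intro t ht t' ht' h
  rw [mem_coe, mem_range] at ht ht'
  have h1 := (des_spec hn1 hn2 hns ht).2.2.2
  have h2 := (des_spec hn1 hn2 hns ht').2.2.2
  apply des_inj i n
  simp only at h
  split_ifs at h
  · exact h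
  · omega
  · omega
  · omega

theorem trans_mem {i n : ℕ} (hn1 : F i < n) (hn2 : n ≤ F (i + 1)) (hns : ¬ Spec i n)
    (S : Finset ℕ) {σ : ℕ} (hσ : σ ∈ trans i n S) :
    σ ∈ A0 ∧ F i ≤ 3 * σ ∧ σ ≤ F (i + 1) := by
  rw [trans, mem_image] at hσ
  obtain ⟨t, ht, rfl⟩ := hσ
  rw [mem_range] at ht
  obtain ⟨h1, h2, h3, h4⟩ := des_spec hn1 hn2 hns ht
  split_ifs
  · exact ⟨h1, h3, by omega⟩
  · exact ⟨h2, by omega, by omega⟩

/-- the default set -/
def dflt (i : ℕ) : Finset ℕ := (range (k i)).image (fun t => F i / 3 + 1 + t)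

theorem dflt_card (i : ℕ) : (dflt i).card = k i := by
  rw [dflt, card_image_of_injective, card_range]
  intro a b h
  simp only at h
  omega

theorem dflt_mem {i σ : ℕ} (hσ : σ ∈ dflt i) : σ ∈ A0 ∧ F i ≤ 3 * σ ∧ σ ≤ F i := by
  rw [dflt, mem_image] at hσ
  obtain ⟨t, ht, rfl⟩ := hσ
  rw [mem_range] at ht
  have h1 := k_le i
  have h2 := F_ge i
  have h3 : F i ≤ 3 * (F i / 3 + 1 + t) := by omega
  have h4 : F i / 3 + 1 + t ≤ F i := by omega
  exact ⟨mem_full (by omega) h4, h3, h4⟩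

/-- lower bound (times three) for the elements of the sets of level `i` -/
def low : ℕ → ℕ
  | 0 => 1
  | (i + 1) => F i

theorem low_le (i : ℕ) : low i ≤ F i := by
  rcases i with _ | i
  · exact F_pos 0
  · exact F_mono (Nat.le_succ i)

theorem low_pos (i : ℕ) : 0 < low i := by
  rcases i with _ | i
  · exact Nat.one_pos
  · exact F_pos i

theorem low_ge (i : ℕ) : i ≤ low i + 1 := by
  rcases i with _ | i
  · exact Nat.zero_le _
  · exact Nat.succ_le_succ (F_ge_id i)

open Classical in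
/-- all the transversals used at level `i + 1` -/
noncomputable def fam (i : ℕ) : Finset (Finset ℕ) :=
  (((range (F (i + 1) + 1)).filter (fun n => F i < n ∧ ¬ Spec i n)) ×ˢ
    (range (k (i + 1))).powerset).image (fun p => trans i p.1 p.2)

theorem fam_card (i : ℕ) : (fam i).card ≤ J (i + 1) := by
  classical
  refine card_image_le.trans ?_
  rw [card_product, card_powerset, card_range, J]
  refine Nat.mul_le_mul_right _ ?_
  refine (card_filter_le _ _).trans ?_
  rw [card_range]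

theorem fam_mem {i : ℕ} {T : Finset ℕ} (hT : T ∈ fam i) :
    T.card = k (i + 1) ∧ ∀ σ ∈ T, σ ∈ A0 ∧ F i ≤ 3 * σ ∧ σ ≤ F (i + 1) := by
  classical
  rw [fam, mem_image] at hT
  obtain ⟨⟨n, S⟩, hp, rfl⟩ := hT
  rw [mem_product, mem_filter, mem_range] at hp
  obtain ⟨⟨h1, h2, h3⟩, -⟩ := hp
  exact ⟨trans_card h2 (by simpa [Nat.lt_succ_iff] using h1) h3 S,
    fun σ hσ => trans_mem h2 (by simpa [Nat.lt_succ_iff] using h1) h3 S hσ⟩

theorem trans_mem_fam {i n : ℕ} (hn1 : F i < n) (hn2 : n ≤ F (i + 1)) (hns : ¬ Spec i n)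
    {S : Finset ℕ} (hS : S ⊆ range (k (i + 1))) : trans i n S ∈ fam i := by
  classical
  rw [fam, mem_image]
  refine ⟨(n, S), ?_, rfl⟩
  rw [mem_product, mem_filter, mem_range, mem_powerset]
  exact ⟨⟨Nat.lt_succ_iff.2 hn2, hn1, hns⟩, hS⟩

/-- the finite sets attached to the special numbers -/
noncomputable def ee : ℕ → ℕ → Finset ℕ
  | 0, _ => dflt 0
  | (i + 1), j => (fam i).toList.getD (j - 1) (dflt (i + 1))

theorem ee_spec (i j : ℕ) : (ee i j).card = k i ∧
    ∀ σ ∈ ee i j, σ ∈ A0 ∧ low i ≤ 3 * σ ∧ σ ≤ F i := by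
  rcases i with _ | i
  · refine ⟨dflt_card 0, fun σ hσ => ?_⟩
    obtain ⟨h1, h2, h3⟩ := dflt_mem hσ
    exact ⟨h1, (low_le 0).trans h2, h3⟩
  · rw [ee]
    by_cases h : j - 1 < (fam i).toList.length
    · rw [List.getD_eq_getElem _ _ h]
      have hm : (fam i).toList[j - 1] ∈ fam i := by
        rw [← mem_toList]
        exact List.getElem_mem h
      obtain ⟨h1, h2⟩ := fam_mem hm
      exact ⟨h1, h2⟩
    · rw [List.getD_eq_default _ _ (not_lt.1 h)]
      refine ⟨dflt_card (i + 1), fun σ hσ => ?_⟩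
      obtain ⟨h1, h2, h3⟩ := dflt_mem hσ
      exact ⟨h1, (low_le (i + 1)).trans h2, h3⟩

theorem ee_surj {i : ℕ} {T : Finset ℕ} (hT : T ∈ fam i) :
    ∃ j, 1 ≤ j ∧ j ≤ J (i + 1) ∧ ee (i + 1) j = T := by
  rw [← mem_toList] at hT
  obtain ⟨m, hm, hm'⟩ := List.getElem_of_mem hT
  refine ⟨m + 1, Nat.le_add_left _ _, ?_, ?_⟩
  · have h1 := fam_card i
    rw [length_toList] at hm
    omega
  · rw [ee, Nat.add_sub_cancel, List.getD_eq_getElem _ _ hm, hm']

theorem ee_bd (i j σ : ℕ) (h : σ ∈ ee i j) : 0 < σ ∧ σ ≤ F i := by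
  obtain ⟨h1, h2, h3⟩ := (ee_spec i j).2 σ h
  have := low_pos i
  exact ⟨by omega, h3⟩

/-- the set of the construction -/
noncomputable def AS : Set ℕ := AA ee

/-- the levels -/
theorem exists_level {n : ℕ} (hn : F 0 < n) : ∃ i, F i < n ∧ n ≤ F (i + 1) := by
  classical
  have hex : ∃ i, n ≤ F i := ⟨n, F_ge_id n⟩
  have h1 := Nat.find_spec hex
  have h2 : Nat.find hex ≠ 0 := by
    intro h0
    rw [h0] at h1
    omega
  obtain ⟨i, hi⟩ := Nat.exists_eq_succ_of_ne_zero h2
  refine ⟨i, ?_, ?_⟩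
  · have := Nat.find_min hex (m := i) (by omega)
    omega
  · rw [hi] at h1
    exact h1

/-- the main combinatorial step: `B ⊆ AS` an asymptotic basis, `b` any number -/
theorem remove {B : Set ℕ} (hB : B ⊆ AS) {N : ℕ}
    (hN : ∀ n ≥ N, ∃ x ∈ B, ∃ y ∈ B, x + y = n) (b : ℕ) {n : ℕ} (hn0 : F 0 < n) (hnN : N ≤ n)
    (hnb : F (3 * b + 3) < n) : ∃ x ∈ B \ {b}, ∃ y ∈ B \ {b}, x + y = n := by
  classical
  obtain ⟨i, hi1, hi2⟩ := exists_level hn0
  -- the level is large
  have hib : 3 * b + 3 ≤ i := by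
    by_contra hlt
    have := F_mono (show i + 1 ≤ 3 * b + 3 by omega)
    omega
  have hlowb : 3 * b < low i := by
    have := low_ge i
    omega
  have hFb : 3 * b < F i := lt_of_lt_of_le hlowb (low_le i)
  by_cases hsp : Spec i n
  · -- special numbers
    obtain ⟨j, hj1, hj2, hj⟩ := hsp
    obtain ⟨x, hx, y, hy, hxy⟩ := hN n hnN
    have hHn : H i ≤ n := by rw [hj]; exact Nat.le_mul_of_pos_right _ hj1
    have hHF := H_ge i
    have hgood : ∀ u v : ℕ, u + v = n → u ∈ ee i j → u ≠ b ∧ v ≠ b := by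
      intro u v huv hu
      obtain ⟨h1, h2, h3⟩ := (ee_spec i j).2 u hu
      exact ⟨by omega, by omega⟩
    have hne : x ≠ b ∧ y ≠ b := by
      rcases special_rep ee ee_bd hj1 hj2 (hB hx) (hB hy) (hxy.trans hj) with h | h
      · exact hgood x y hxy h
      · exact (hgood y x (by omega) h).symm
    exact ⟨x, ⟨hx, hne.1⟩, y, ⟨hy, hne.2⟩, hxy⟩
  · -- other numbers
    by_contra hcon
    set S : Finset ℕ := (range (k (i + 1))).filter (fun t => des i n t ∉ B) with hS
    have hmem := trans_mem_fam hi1 hi2 hsp (S := S) (filter_subset _ _)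
    obtain ⟨j, hj1, hj2, hj⟩ := ee_surj hmem
    have hdisj : ∀ σ ∈ ee (i + 1) j, σ ∉ B := by
      intro σ hσ hσB
      rw [hj, trans, mem_image] at hσ
      obtain ⟨t, ht, rfl⟩ := hσ
      rw [mem_range] at ht
      obtain ⟨h1, h2, h3, h4⟩ := des_spec hi1 hi2 hsp ht
      by_cases htS : t ∈ S
      · rw [if_pos htS] at hσB
        exact (mem_filter.1 htS).2 hσB
      · rw [if_neg htS] at hσB
        have hdB : des i n t ∈ B := by
          by_contra hd
          exact htS (mem_filter.2 ⟨mem_range.2 ht, hd⟩)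
        apply hcon
        refine ⟨des i n t, ⟨hdB, ?_⟩, n - des i n t, ⟨hσB, ?_⟩, by omega⟩
        · rw [Set.mem_singleton_iff]; omega
        · rw [Set.mem_singleton_iff]; omega
    have hbig : N ≤ H (i + 1) * j := by
      have h1 : H (i + 1) ≤ H (i + 1) * j := Nat.le_mul_of_pos_right _ hj1
      have h2 := H_ge (i + 1)
      omega
    obtain ⟨x, hx, y, hy, hxy⟩ := hN _ hbig
    rcases special_rep ee ee_bd hj1 hj2 (hB hx) (hB hy) hxy with h | h
    · exact hdisj x h hx
    · exact hdisj y h hy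

/-- the number of representations, with `r A n` as in the problem -/
noncomputable def rep (A : Set ℕ) (n : ℕ) : ℕ :=
  {p : ℕ × ℕ | p.1 ∈ A ∧ p.2 ∈ A ∧ p.1 ≤ p.2 ∧ p.1 + p.2 = n}.ncard

theorem rep_ge (A : Set ℕ) (n : ℕ) (P : Finset (ℕ × ℕ))
    (hP : ∀ p ∈ P, p.1 ∈ A ∧ p.2 ∈ A ∧ p.1 ≤ p.2 ∧ p.1 + p.2 = n) : P.card ≤ rep A n := by
  rw [rep, ← Set.ncard_coe_finset P]
  refine Set.ncard_le_ncard hP ?_
  refine Set.Finite.subset ((range (n + 1)) ×ˢ (range (n + 1))).finite_toSet ?_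
  rintro ⟨x, y⟩ ⟨-, -, -, h⟩
  simp only at h
  simp only [coe_product, Set.mem_prod, mem_coe, mem_range]
  omega

theorem rep_nonspecial {i n : ℕ} (hn1 : F i < n) (hn2 : n ≤ F (i + 1)) (hns : ¬ Spec i n) :
    k (i + 1) ≤ rep AS n := by
  have h := rep_ge AS n ((range (k (i + 1))).image (fun t => (des i n t, n - des i n t))) ?_
  · rwa [card_image_of_injective, card_range] at h
    intro a b hab
    exact des_inj i n (Prod.mk.inj hab).1
  · intro p hp
    rw [mem_image] at hp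
    obtain ⟨t, ht, rfl⟩ := hp
    rw [mem_range] at ht
    obtain ⟨h1, h2, h3, h4⟩ := des_spec hn1 hn2 hns ht
    exact ⟨Or.inl h1, Or.inl h2, by simp only; omega, by simp only; omega⟩

theorem rep_special {i n : ℕ} (hs : Spec i n) : k i ≤ rep AS n := by
  obtain ⟨j, hj1, hj2, hj⟩ := hs
  have hHn : H i ≤ n := by rw [hj]; exact Nat.le_mul_of_pos_right _ hj1
  have hHF := H_ge i
  have h := rep_ge AS n ((ee i j).image (fun σ => (σ, n - σ))) ?_
  · rwa [card_image_of_injective, (ee_spec i j).1] at h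
    intro a b hab
    exact (Prod.mk.inj hab).1
  · intro p hp
    rw [mem_image] at hp
    obtain ⟨σ, hσ, rfl⟩ := hp
    obtain ⟨h1, h2, h3⟩ := (ee_spec i j).2 σ hσ
    refine ⟨Or.inl h1, Or.inr ⟨i, j, σ, hj1, hj2, hσ, ?_⟩, by simp only; omega,
      by simp only; omega⟩
    simp only
    omega

end Pool.Agent.H764MB
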